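import Pool.Agent.H564R3.TS.Defs

/-!
Words weighted by their windows: definitions.
-/

set_option autoImplicit false

namespace Pool.Agent.H564R3.WN

open Finset

/-- the weight variables: position of the window and its `k + 1` letters -/
abbrev WVar (N k q : ℕ) : Type := Fin N × (Fin (k + 1) → Fin q)

/-- window `t` of the word `φ`: the letters `t, ..., t + k` -/
def wv {N k q : ℕ} (φ : Fin (N + k) → Fin q) (t : Fin N) : WVar N k q :=
  (t, fun j => φ ⟨t.val + j.val, by omega⟩)

/-- the sum over all words of length `N + k` over an alphabet of `q` letters of the product of the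
weights of the `N` windows of length `k + 1` -/
def windowSum {R : Type} [CommSemiring R] {N k q : ℕ} (w : WVar N k q → R) : R :=
  ∑ φ : Fin (N + k) → Fin q, ∏ t : Fin N, w (wv φ t)

/-- the variables of a word -/
def wset {N k q : ℕ} (φ : Fin (N + k) → Fin q) : Finset (WVar N k q) := univ.image (wv φ)

/-- the window of a variable -/
def wpos {N k q : ℕ} (x : WVar N k q) : Finset (Fin N) := {x.1}

/-- letter `v` belongs to window `t` -/
def WInc {N k : ℕ} (t : Fin N) (v : Fin (N + k)) : Prop := t.val ≤ v.val ∧ v.val ≤ t.val + k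

/-- `v` is a boundary letter of the set `Z` of windows -/
def WBd {N k : ℕ} (Z : Finset (Fin N)) (v : Fin (N + k)) : Prop :=
  (∃ t ∈ Z, WInc t v) ∧ ∃ t, t ∉ Z ∧ WInc t v

end Pool.Agent.H564R3.WN
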