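import Pool.Agent.H564R3.WN.Defs
import Pool.Agent.H564R3.GR.Sep

/-! Task W2: boundary letters of privileged lists. -/

set_option autoImplicit false

namespace Pool.Agent.H564R3.WN

open Finset
open Pool.Agent.H564R3.PW (Instr runs exec syms)
open Pool.Agent.H564R3.TS

theorem win_iso (N k r : ℕ) (hk : 1 ≤ k) (hr : 1 ≤ r) (L : List (Finset (Fin N)))
    (hL : L.length = r) (hP : PW.Priv (r * k) L) (hE : r * k ≤ (univ \ PW.un L).card)
    (Xs : Finset (Fin (N + k))) (hX : ∀ Z ∈ L, ∀ v, WBd Z v → v ∈ Xs) : k * r ≤ Xs.card := by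
  have e0 : r * k + (N - (N - 0)) = r * k := by omega
  obtain ⟨t, ht, hsep⟩ := GR.sep_changes N r k 0 N hr hk le_rfl L hL (by rw [e0]; exact hP)
    (by rw [e0]; exact hE)
  have hlt : ∀ (i : Fin r) (j : Fin k), t i + 1 + j.val < N + k := by
    intro i j
    have h1 := (ht i).2.1
    have h2 := j.2
    omega
  have hmem : ∀ (i : Fin r) (j : Fin k), (⟨t i + 1 + j.val, hlt i j⟩ : Fin (N + k)) ∈ Xs := by
    intro i j
    obtain ⟨-, h1, Z, hZ, h2, h3, h4⟩ := ht i
    have hj := j.2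
    have w1 : WInc (⟨t i, h2⟩ : Fin N) (⟨t i + 1 + j.val, hlt i j⟩ : Fin (N + k)) := by
      unfold WInc
      constructor
      · change t i ≤ t i + 1 + j.val
        omega
      · change t i + 1 + j.val ≤ t i + k
        omega
    have w2 : WInc (⟨t i + 1, h3⟩ : Fin N) (⟨t i + 1 + j.val, hlt i j⟩ : Fin (N + k)) := by
      unfold WInc
      constructor
      · change t i + 1 ≤ t i + 1 + j.val
        omega
      · change t i + 1 + j.val ≤ t i + 1 + k
        omega
    refine hX Z hZ _ ?_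
    by_cases h5 : (⟨t i, h2⟩ : Fin N) ∈ Z
    · have h6 : (⟨t i + 1, h3⟩ : Fin N) ∉ Z := fun h6 => h4 ⟨fun _ => h6, fun _ => h5⟩
      exact ⟨⟨_, h5, w1⟩, ⟨_, h6, w2⟩⟩
    · have h6 : (⟨t i + 1, h3⟩ : Fin N) ∈ Z := by
        by_contra h6
        exact h4 ⟨fun h => absurd h h5, fun h => absurd h h6⟩
      exact ⟨⟨_, h6, w2⟩, ⟨_, h5, w1⟩⟩
  have hcard : (univ : Finset (Fin r × Fin k)).card ≤ Xs.card := by
    refine card_le_card_of_injOn (fun p => ⟨t p.1 + 1 + p.2.val, hlt p.1 p.2⟩)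
      (fun p _ => hmem p.1 p.2) ?_
    rintro ⟨i, j⟩ _ ⟨i', j'⟩ _ h
    have h1 : t i + 1 + j.val = t i' + 1 + j'.val := congrArg Fin.val h
    have hj := j.2
    have hj' := j'.2
    rcases lt_trichotomy i i' with h2 | h2 | h2
    · have := hsep i i' h2
      omega
    · subst h2
      have h3 : j = j' := Fin.ext (by omega)
      rw [h3]
    · have := hsep i' i h2
      omega
  rw [card_univ, Fintype.card_prod, Fintype.card_fin, Fintype.card_fin] at hcard
  rw [mul_comm]
  exact hcard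

end Pool.Agent.H564R3.WN
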