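import Pool.Agent.H564R3.WN.Defs

/-! Windows: basic facts about the sets of variables of words (task W1). -/

set_option autoImplicit false

namespace Pool.Agent.H564R3.WN

open Finset
open Pool.Agent.H564R3.PW (Instr runs exec syms)
open Pool.Agent.H564R3.TS

theorem WNA_sv_inj {N k q : ℕ} (φ : Fin (N + k) → Fin q) : Function.Injective (wv φ) := by
  intro i j h
  exact congrArg Prod.fst h

theorem WNA_mem_wset {N k q : ℕ} (φ : Fin (N + k) → Fin q) (x : WVar N k q) :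
    x ∈ wset φ ↔ x = wv φ x.1 := by
  constructor
  · intro h
    obtain ⟨i, -, rfl⟩ := mem_image.mp h
    rfl
  · intro h
    rw [h]
    exact mem_image_of_mem _ (mem_univ _)

theorem WNA_mem_biUnion {N k q : ℕ} (Y : Finset (WVar N k q)) (i : Fin N) :
    i ∈ Y.biUnion wpos ↔ ∃ y ∈ Y, y.1 = i := by
  simp only [mem_biUnion, wpos, mem_singleton]
  constructor
  · rintro ⟨y, hy, rfl⟩; exact ⟨y, hy, rfl⟩
  · rintro ⟨y, hy, rfl⟩; exact ⟨y, hy, rfl⟩

theorem win_exact {N k q : ℕ} (φ : Fin (N + k) → Fin q) : Exact wpos 1 univ (wset φ) := by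
  refine ⟨fun x _ => by simp [wpos], fun x _ => subset_univ _, ?_, ?_⟩
  · intro x hx y hy hne
    rw [WNA_mem_wset] at hx hy
    simp only [wpos, disjoint_singleton]
    intro h
    apply hne
    rw [hx, hy, h]
  · intro e _
    exact ⟨wv φ e, mem_image_of_mem _ (mem_univ _), by simp [wpos, wv]⟩

theorem win_card {N k q : ℕ} (φ : Fin (N + k) → Fin q) : (wset φ).card = N := by
  unfold wset
  rw [card_image_of_injective _ (WNA_sv_inj φ), card_univ, Fintype.card_fin]

theorem WNA_lab {N k q : ℕ} {φ ψ : Fin (N + k) → Fin q} {t : Fin N} {v : Fin (N + k)}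
    (hv : WInc t v) (h : wv φ t = wv ψ t) : φ v = ψ v := by
  obtain ⟨ha, hb⟩ := hv
  have h1 := congrFun (congrArg Prod.snd h) ⟨v.val - t.val, by omega⟩
  have e : (⟨t.val + (v.val - t.val), by omega⟩ : Fin (N + k)) = v := Fin.ext (by simp; omega)
  simp only [wv] at h1
  rw [e] at h1
  exact h1

theorem WNA_inj {N k q : ℕ} (hN : 1 ≤ N) : Function.Injective (wset (N := N) (k := k) (q := q)) := by
  intro φ ψ h
  funext v
  have hcov : ∃ t : Fin N, WInc t v := by
    rcases Nat.lt_or_ge v.val N with hx | hx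
    · exact ⟨⟨v.val, hx⟩, le_rfl, Nat.le_add_right _ _⟩
    · refine ⟨⟨N - 1, by omega⟩, ?_, ?_⟩
      · show N - 1 ≤ v.val
        omega
      · show v.val ≤ N - 1 + k
        have := v.2
        omega
  obtain ⟨t, ht⟩ := hcov
  have h1 : wv φ t ∈ wset ψ := by
    rw [← h]; exact mem_image_of_mem _ (mem_univ _)
  exact WNA_lab ht ((WNA_mem_wset ψ _).mp h1)

theorem win_sum {R : Type} [CommSemiring R] {N k q : ℕ} (hN : 1 ≤ N)
    (w : WVar N k q → R) :
    windowSum w = ∑ A ∈ univ.image (wset (N := N) (k := k) (q := q)), ∏ x ∈ A, w x := by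
  rw [sum_image (fun a _ b _ h => WNA_inj hN h)]
  unfold windowSum wset
  refine sum_congr rfl fun φ _ => ?_
  rw [prod_image (fun a _ b _ h => WNA_sv_inj φ h)]

theorem win_type {N k q : ℕ} {T : Set (WVar N k q → ℕ)}
    (hT : ∀ u ∈ T, ∃ χ : Fin (N + k) → Fin q, ∀ t, u (wv χ t) ≠ 0)
    (φ ψ : Fin (N + k) → Fin q) (Y Z : Finset (WVar N k q))
    (hY : Y ⊆ wset φ) (hZ : Z ⊆ wset ψ) (hpos : Y.biUnion wpos = Z.biUnion wpos)
    (h : ind (wset φ \ Y) + ind Z ∈ T) (v : Fin (N + k)) (hv : WBd (Y.biUnion wpos) v) :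
    φ v = ψ v := by
  obtain ⟨χ, hχ⟩ := hT _ h
  have hor : ∀ i, wv χ i ∈ wset φ \ Y ∨ wv χ i ∈ Z := by
    intro i
    by_contra hcon
    rw [not_or] at hcon
    apply hχ i
    simp only [Pi.add_apply, ind, if_neg hcon.1, if_neg hcon.2]
  have hout : ∀ i, i ∉ Y.biUnion wpos → wv χ i = wv φ i := by
    intro i hi
    rcases hor i with h1 | h1
    · exact (WNA_mem_wset φ _).mp (mem_sdiff.mp h1).1
    · exact absurd ((WNA_mem_biUnion Z i).mpr ⟨_, h1, rfl⟩) (hpos ▸ hi)
  have hin : ∀ i, i ∈ Y.biUnion wpos → wv χ i = wv ψ i := by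
    intro i hi
    rcases hor i with h1 | h1
    · obtain ⟨y, hy, rfl⟩ := (WNA_mem_biUnion Y i).mp hi
      have h2 : wv χ y.1 = wv φ y.1 := (WNA_mem_wset φ _).mp (mem_sdiff.mp h1).1
      have h3 : y = wv φ y.1 := (WNA_mem_wset φ _).mp (hY hy)
      exfalso
      apply (mem_sdiff.mp h1).2
      rw [h2, ← h3]
      exact hy
    · exact (WNA_mem_wset ψ _).mp (hZ h1)
  obtain ⟨⟨e, he, hve⟩, ⟨e', he', hve'⟩⟩ := hv
  have h3 : χ v = ψ v := WNA_lab hve (hin _ he)
  have h4 : χ v = φ v := WNA_lab hve' (hout _ he')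
  exact h4.symm.trans h3

end Pool.Agent.H564R3.WN
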