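import Pool.Agent.H564R3.CY.Gen
import Pool.Agent.H564R3.WN.Windows
import Pool.Agent.H564R3.WN.WIso
import Pool.Agent.H564R3.PW.Num

/-! The lower bound for straight-line programs which produce the words. -/

set_option autoImplicit false

namespace Pool.Agent.H564R3.WN

open Finset
open Pool.Agent.H564R3.PW (Instr runs exec syms)
open Pool.Agent.H564R3.TS
open Pool.Agent.H564R3.CY (gen_count)

theorem win_lower {R ρ : Type} [Zero R] [Fintype ρ] [DecidableEq ρ] {N k q : ℕ} (hk : 1 ≤ k)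
    (hq : 1 ≤ q) (p : List (Instr R (WVar N k q) ρ)) (o : ρ)
    (g1 : ∀ A ∈ univ.image (wset (N := N) (k := k) (q := q)), ind A ∈ syms p o)
    (g2 : ∀ u ∈ syms p o, ∃ A ∈ univ.image (wset (N := N) (k := k) (q := q)), ∀ x ∈ A, u x ≠ 0)
    (r : ℕ) (hr : 1 ≤ r) (hn : (2 * (r * k) + 1) * 512 ^ r ≤ N) :
    (q ^ k) ^ r ≤ (64 * Fintype.card ρ) ^ r * p.length ^ 2 := by
  classical
  have hp : 1 ≤ p.length := by
    rcases p with _ | ⟨a, l⟩
    · have h1 := g1 _ (mem_image_of_mem (wset (N := N) (k := k) (q := q))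
        (mem_univ (fun _ => ⟨0, hq⟩)))
      exact absurd h1 (Set.notMem_empty _)
    · simp
  have hT : Cov wpos (syms p o) := by
    intro u hu e
    obtain ⟨A, hA, hAu⟩ := g2 u hu
    rw [mem_image] at hA
    obtain ⟨φ, _, rfl⟩ := hA
    obtain ⟨x, hx, hex⟩ := (win_exact φ).cover e (mem_univ e)
    exact ⟨x, hAu x hx, hex⟩
  have hTp : ∀ u ∈ syms p o, ∃ χ : Fin (N + k) → Fin q, ∀ t, u (wv χ t) ≠ 0 := by
    intro u hu
    obtain ⟨A, hA, hAu⟩ := g2 u hu
    rw [mem_image] at hA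
    obtain ⟨χ, _, rfl⟩ := hA
    exact ⟨χ, fun t => hAu _ (mem_image_of_mem _ (mem_univ t))⟩
  refine PW.num_lower hr hp fun M hM hMT => ?_
  refine gen_count (V := Fin (N + k)) (E := Fin N) hq (sup := wpos) p o hT wset
    (fun φ => win_exact φ) (fun φ => g1 _ (mem_image_of_mem _ (mem_univ φ))) WBd
    (fun φ ψ Y Z hY hZ hpos h v hv => win_type hTp φ ψ Y Z hY hZ hpos h v hv)
    (r * k) M r k r (Nat.mul_pos hr hk) hM hr
    (fun Ls hL hP hE Xs hX => win_iso N k r hk hr Ls hL hP hE Xs hX) hMT ?_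
  rw [Fintype.card_fin]
  have h2 : (8 : ℕ) ^ r * 64 ^ r = 512 ^ r := by
    rw [← mul_pow]
    norm_num
  calc (2 * (r * k) + 1) * 8 ^ r * 64 ^ r = (2 * (r * k) + 1) * 512 ^ r := by
        rw [mul_assoc, h2]
    _ ≤ N := hn

end Pool.Agent.H564R3.WN
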