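import Pool.Agent.H564R3.WN.Defs
import Pool.Agent.H564R3.GR.Stubs

/-! Stubs (statements only): every theorem goes to its own file, see `h564n_tasks`. -/

set_option autoImplicit false

namespace Pool.Agent.H564R3.WN

open Finset
open Pool.Agent.H564R3.PW (Instr runs exec syms)
open Pool.Agent.H564R3.TS

/-! ### W1 (Windows.lean) -/

theorem win_exact {N k q : ℕ} (φ : Fin (N + k) → Fin q) : Exact wpos 1 univ (wset φ) := by
  sorry

theorem win_card {N k q : ℕ} (φ : Fin (N + k) → Fin q) : (wset φ).card = N := by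
  sorry

theorem win_sum {R : Type} [CommSemiring R] {N k q : ℕ} (hN : 1 ≤ N) (w : WVar N k q → R) :
    windowSum w = ∑ A ∈ univ.image (wset (N := N) (k := k) (q := q)), ∏ x ∈ A, w x := by
  sorry

theorem win_type {N k q : ℕ} {T : Set (WVar N k q → ℕ)}
    (hT : ∀ u ∈ T, ∃ χ : Fin (N + k) → Fin q, ∀ t, u (wv χ t) ≠ 0)
    (φ ψ : Fin (N + k) → Fin q) (Y Z : Finset (WVar N k q))
    (hY : Y ⊆ wset φ) (hZ : Z ⊆ wset ψ) (hpos : Y.biUnion wpos = Z.biUnion wpos)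
    (h : ind (wset φ \ Y) + ind Z ∈ T) (v : Fin (N + k)) (hv : WBd (Y.biUnion wpos) v) :
    φ v = ψ v := by
  sorry

/-! ### W2 (WIso.lean; uses `sep_changes`, task B) -/

theorem win_iso (N k r : ℕ) (hk : 1 ≤ k) (hr : 1 ≤ r) (L : List (Finset (Fin N)))
    (hL : L.length = r) (hP : PW.Priv (r * k) L) (hE : r * k ≤ (univ \ PW.un L).card)
    (Xs : Finset (Fin (N + k))) (hX : ∀ Z ∈ L, ∀ v, WBd Z v → v ∈ Xs) : k * r ≤ Xs.card := by
  sorry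

/-! ### W3 (WUpper.lean): linear time -/

theorem win_upper {R : Type} [CommSemiring R] (N k q : ℕ) (hN : 1 ≤ N) (hk : 1 ≤ k)
    (hq : 1 ≤ q) :
    ∃ (ρ : Type) (_ : Fintype ρ) (_ : DecidableEq ρ) (p : List (Instr R (WVar N k q) ρ)) (o : ρ),
      Fintype.card ρ = 2 * q ^ k + 2 ∧ p.length ≤ 8 * (N * q ^ (k + 1)) ∧
      ∀ w : WVar N k q → R, exec w p o = windowSum w := by
  sorry

/-! ### W4 (WSmall.lean): small space, from `td_upper` -/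

theorem win_small {R : Type} [CommSemiring R] (k q h : ℕ) (hq : 1 ≤ q) (N : ℕ) (hN : 1 ≤ N)
    (hN2 : N + k ≤ k * 2 ^ h) :
    ∃ (ρ : Type) (_ : Fintype ρ) (_ : DecidableEq ρ) (p : List (Instr R (WVar N k q) ρ)) (o : ρ),
      Fintype.card ρ = 2 * (k * h + k) + 2 ∧ p.length ≤ (7 * N + 5 * k + 1) * (q ^ k) ^ (h + 1) ∧
      ∀ w : WVar N k q → R, exec w p o = windowSum w := by
  sorry

/-! ### W5 (WNum.lean) -/

theorem win_num (c : ℕ) (ε : ℝ) (hε : 0 < ε) : ∃ k₀ : ℕ, ∀ k ≥ k₀, ∀ S T : ℕ,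
    (∀ r : ℕ, 1 ≤ r → (2 * (r * k) + 1) * 512 ^ r ≤ k ^ 2 → (2 ^ k) ^ r ≤ (64 * S) ^ r * T ^ 2) →
    (T : ℝ) ≤ ((k ^ 2 * 2 ^ (k + 1) : ℕ) : ℝ) ^ c →
    ((k ^ 2 * 2 ^ (k + 1) : ℕ) : ℝ) ^ (1 - ε) ≤ S := by
  sorry

end Pool.Agent.H564R3.WN
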