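import Mathlib
import Pool.Agent.H564R3.WN.Defs

set_option autoImplicit false

namespace Pool.Agent.H564R3.WN

open Finset

theorem WNE_aux {k r c S T : ℕ} {n ε : ℝ} (hn : 1 ≤ n) (hr : 1 ≤ r)
    (hrc : 4 * (c : ℝ) ≤ ε * r) (hm : n = 2 * (k : ℝ) ^ 2 * 2 ^ k)
    (hK : 128 * (k : ℝ) ^ 2 ≤ n ^ (ε / 2))
    (h : (2 ^ k) ^ r ≤ (64 * S) ^ r * T ^ 2) (hT : (T : ℝ) ≤ n ^ c) :
    n ^ (1 - ε) ≤ S := by
  have hn0 : (0 : ℝ) < n := by linarith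
  have hR : (((2 : ℝ) ^ k)) ^ r ≤ (64 * (S : ℝ)) ^ r * (T : ℝ) ^ 2 := by exact_mod_cast h
  have hS0 : (0 : ℝ) ≤ S := Nat.cast_nonneg S
  have hT2 : (T : ℝ) ^ 2 ≤ (n ^ (ε / 2)) ^ r := by
    have h1 : (T : ℝ) ^ 2 ≤ (n ^ c) ^ 2 := pow_le_pow_left₀ (Nat.cast_nonneg T) hT 2
    refine h1.trans ?_
    rw [← Real.rpow_natCast (n ^ (ε / 2)) r, ← Real.rpow_mul hn0.le, ← pow_mul,
      ← Real.rpow_natCast n (c * 2)]
    apply Real.rpow_le_rpow_of_exponent_le hn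
    push_cast
    linarith
  have h2 : ((2 : ℝ) ^ k) ^ r ≤ (64 * (S : ℝ) * n ^ (ε / 2)) ^ r := by
    rw [mul_pow (64 * (S : ℝ))]
    exact hR.trans (mul_le_mul_of_nonneg_left hT2 (by positivity))
  have h3 : (2 : ℝ) ^ k ≤ 64 * (S : ℝ) * n ^ (ε / 2) :=
    le_of_pow_le_pow_left₀ (by omega) (by positivity) h2
  have h5 : n ≤ (S : ℝ) * n ^ ε := by
    have h6 : n ^ ε = n ^ (ε / 2) * n ^ (ε / 2) := by
      rw [← Real.rpow_add hn0]; congr 1; ring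
    calc n = 2 * (k : ℝ) ^ 2 * 2 ^ k := hm
      _ ≤ 2 * (k : ℝ) ^ 2 * (64 * (S : ℝ) * n ^ (ε / 2)) :=
          mul_le_mul_of_nonneg_left h3 (by positivity)
      _ = (128 * (k : ℝ) ^ 2) * ((S : ℝ) * n ^ (ε / 2)) := by ring
      _ ≤ n ^ (ε / 2) * ((S : ℝ) * n ^ (ε / 2)) :=
          mul_le_mul_of_nonneg_right hK (by positivity)
      _ = (S : ℝ) * n ^ ε := by rw [h6]; ring
  have h7 : n ^ (1 - ε) = n / n ^ ε := by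
    rw [Real.rpow_sub hn0, Real.rpow_one]
  rw [h7, div_le_iff₀ (Real.rpow_pos_of_pos hn0 _)]
  exact h5

theorem win_num (c : ℕ) (ε : ℝ) (hε : 0 < ε) : ∃ k₀ : ℕ, ∀ k ≥ k₀, ∀ S T : ℕ,
    (∀ r : ℕ, 1 ≤ r → (2 * (r * k) + 1) * 512 ^ r ≤ k ^ 2 → (2 ^ k) ^ r ≤ (64 * S) ^ r * T ^ 2) →
    (T : ℝ) ≤ ((k ^ 2 * 2 ^ (k + 1) : ℕ) : ℝ) ^ c →
    ((k ^ 2 * 2 ^ (k + 1) : ℕ) : ℝ) ^ (1 - ε) ≤ S := by
  obtain ⟨r, hr⟩ : ∃ r : ℕ, 4 * (c : ℝ) / ε + 1 ≤ r := exists_nat_ge _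
  have hr1 : 1 ≤ r := by
    have h1 : (0 : ℝ) ≤ 4 * (c : ℝ) / ε := by positivity
    have h2 : (1 : ℝ) ≤ r := by linarith
    exact_mod_cast h2
  have hrc : 4 * (c : ℝ) ≤ ε * r := by
    have h1 : 4 * (c : ℝ) / ε ≤ r := by linarith
    rw [div_le_iff₀ hε] at h1
    linarith
  have hb : (1 : ℝ) < (2 : ℝ) ^ (ε / 2) := Real.one_lt_rpow (by norm_num) (by positivity)
  have htend := tendsto_pow_const_div_const_pow_of_one_lt 2 hb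
  obtain ⟨k₁, hk₁⟩ := Filter.eventually_atTop.mp
    (htend.eventually_le_const (show (0 : ℝ) < 1 / 128 by norm_num))
  refine ⟨max k₁ ((2 * r + 1) * 512 ^ r), fun k hk S T hST hT => ?_⟩
  have hkk₁ : k₁ ≤ k := le_trans (le_max_left _ _) hk
  have hk2 : (2 * r + 1) * 512 ^ r ≤ k := le_trans (le_max_right _ _) hk
  have hk1 : 1 ≤ k := by
    have : 0 < (2 * r + 1) * 512 ^ r := by positivity
    omega
  have h3 : (2 * (r * k) + 1) * 512 ^ r ≤ k ^ 2 := by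
    calc (2 * (r * k) + 1) * 512 ^ r ≤ ((2 * r + 1) * k) * 512 ^ r := by
          apply Nat.mul_le_mul_right
          nlinarith
      _ = ((2 * r + 1) * 512 ^ r) * k := by ring
      _ ≤ k * k := Nat.mul_le_mul_right _ hk2
      _ = k ^ 2 := by ring
  have hn1 : (1 : ℝ) ≤ ((k ^ 2 * 2 ^ (k + 1) : ℕ) : ℝ) := by
    have : 0 < k ^ 2 * 2 ^ (k + 1) := by positivity
    exact_mod_cast this
  have hn2 : (2 : ℝ) ^ k ≤ ((k ^ 2 * 2 ^ (k + 1) : ℕ) : ℝ) := by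
    have h4 : 2 ^ k ≤ k ^ 2 * 2 ^ (k + 1) := by
      have h5 : 1 ≤ k ^ 2 := Nat.one_le_pow _ _ hk1
      calc 2 ^ k = 1 * 2 ^ k := (one_mul _).symm
        _ ≤ k ^ 2 * 2 ^ (k + 1) := Nat.mul_le_mul h5 (Nat.pow_le_pow_right (by norm_num) (by omega))
    exact_mod_cast h4
  have hK : 128 * (k : ℝ) ^ 2 ≤ ((k ^ 2 * 2 ^ (k + 1) : ℕ) : ℝ) ^ (ε / 2) := by
    have h4 := hk₁ k hkk₁
    have hbk : 0 < ((2 : ℝ) ^ (ε / 2)) ^ k := by positivity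
    rw [div_le_iff₀ hbk] at h4
    have h5 : ((2 : ℝ) ^ (ε / 2)) ^ k = ((2 : ℝ) ^ k) ^ (ε / 2) := by
      rw [← Real.rpow_natCast, ← Real.rpow_mul (by norm_num), mul_comm, Real.rpow_mul (by norm_num),
        Real.rpow_natCast]
    have h6 : ((2 : ℝ) ^ k) ^ (ε / 2) ≤ ((k ^ 2 * 2 ^ (k + 1) : ℕ) : ℝ) ^ (ε / 2) :=
      Real.rpow_le_rpow (by positivity) hn2 (by positivity)
    rw [h5] at h4
    linarith
  refine WNE_aux hn1 hr1 hrc ?_ hK (hST r hr1 h3) hT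
  push_cast
  ring

end Pool.Agent.H564R3.WN
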