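import Pool.Agent.H564R3.WN.Defs
import Pool.Agent.H564R3.TD.Upper
import Pool.Agent.H564R3.TD.Depth
import Pool.Agent.H564R3.CY.Subst

/-! W4: small space, from `td_upper`. -/

set_option autoImplicit false

namespace Pool.Agent.H564R3.WN

open Finset
open Pool.Agent.H564R3.PW (Instr runs exec syms)
open Pool.Agent.H564R3.TS
open Pool.Agent.H564R3.TD (CVar cv netSum Adj Conn TDle)

/-- the scopes of the windows -/
def WND_sc (N k : ℕ) (t : Fin N) : Finset (Fin (N + k)) :=
  univ.filter fun v => t.val ≤ v.val ∧ v.val ≤ t.val + k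

theorem WND_adj (N k : ℕ) (u v : Fin (N + k)) (h : Adj (WND_sc N k) u v) : v.val ≤ u.val + k := by
  obtain ⟨e, hu, hv⟩ := h
  unfold WND_sc at hu hv
  rw [mem_filter] at hu hv
  omega

theorem WND_card (n k a : ℕ) (M : Finset (Fin n)) (hM : ∀ v ∈ M, a ≤ v.val ∧ v.val < a + k) :
    M.card ≤ k := by
  have h1 : M.image (fun v : Fin n => v.val) ⊆ Ico a (a + k) := by
    intro x hx
    obtain ⟨v, hv, rfl⟩ := mem_image.1 hx
    exact mem_Ico.2 (hM v hv)
  have h2 := card_le_card h1
  rw [card_image_of_injective _ Fin.val_injective, Nat.card_Ico] at h2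
  omega

theorem WND_td (N k : ℕ) : ∀ (h a : ℕ) (M : Finset (Fin (N + k))),
    (∀ v ∈ M, a ≤ v.val ∧ v.val < a + k * 2 ^ h) → TDle (WND_sc N k) (k * h + k) M := by
  intro h
  induction h with
  | zero =>
    intro a M hM
    have : M.card ≤ k := WND_card (N + k) k a M (by simpa using hM)
    rw [Nat.mul_zero, Nat.zero_add]
    exact TD.TDC_card _ k M this
  | succ h ih =>
    intro a M hM
    set C : Finset (Fin (N + k)) := M.filter fun v => a + k * 2 ^ h ≤ v.val ∧
      v.val < a + k * 2 ^ h + k with hC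
    have hCk : C.card ≤ k := by
      refine WND_card (N + k) k (a + k * 2 ^ h) C fun v hv => ?_
      rw [hC, mem_filter] at hv
      exact hv.2
    have hpow : k * 2 ^ (h + 1) = k * 2 ^ h + k * 2 ^ h := by rw [pow_succ]; ring
    have key : TDle (WND_sc N k) (k * h + k + C.card) M := by
      by_contra hcon
      obtain ⟨M', hM', hconn, hnot⟩ := TD.TD_split _ _ M C hcon
      have hsplit : ∀ v ∈ M', (a ≤ v.val ∧ v.val < a + k * 2 ^ h) ∨
          (a + k * 2 ^ h + k ≤ v.val ∧ v.val < a + k * 2 ^ h + k + k * 2 ^ h) := by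
        intro v hv
        have h1 := hM' hv
        rw [mem_sdiff] at h1
        have h2 := hM v h1.1
        have h3 : ¬ (a + k * 2 ^ h ≤ v.val ∧ v.val < a + k * 2 ^ h + k) := by
          intro h4
          exact h1.2 (by rw [hC, mem_filter]; exact ⟨h1.1, h4⟩)
        rw [hpow] at h2
        omega
      set Y : Finset (Fin (N + k)) := M'.filter fun v => v.val < a + k * 2 ^ h with hY
      by_cases hY0 : Y.Nonempty
      · by_cases hYM : Y = M'
        · apply hnot
          refine ih a M' fun v hv => ?_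
          have h1 : v ∈ Y := by rw [hYM]; exact hv
          rw [hY, mem_filter] at h1
          rcases hsplit v hv with h2 | h2
          · exact h2
          · omega
        · obtain ⟨u, hu, v, hv, hadj⟩ := hconn.2 Y (filter_subset _ _) hY0 hYM
          have h1 := WND_adj N k u v hadj
          rw [hY, mem_filter] at hu
          rw [mem_sdiff] at hv
          have h2 : ¬ (v.val < a + k * 2 ^ h) := by
            intro h3
            exact hv.2 (by rw [hY, mem_filter]; exact ⟨hv.1, h3⟩)
          rcases hsplit v hv.1 with h4 | h4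
          · omega
          · omega
      · apply hnot
        refine ih (a + k * 2 ^ h + k) M' fun v hv => ?_
        rcases hsplit v hv with h2 | h2
        · exfalso
          apply hY0
          exact ⟨v, by rw [hY, mem_filter]; exact ⟨hv, h2.2⟩⟩
        · exact h2
    refine TD.TDC_le _ _ _ ?_ M key
    rw [Nat.mul_succ]
    omega

theorem win_small {R : Type} [CommSemiring R] (k q h : ℕ) (hq : 1 ≤ q) (N : ℕ) (hN : 1 ≤ N)
    (hN2 : N + k ≤ k * 2 ^ h) :
    ∃ (ρ : Type) (_ : Fintype ρ) (_ : DecidableEq ρ) (p : List (Instr R (WVar N k q) ρ)) (o : ρ),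
      Fintype.card ρ = 2 * (k * h + k) + 2 ∧ p.length ≤ (7 * N + 5 * k + 1) * (q ^ k) ^ (h + 1) ∧
      ∀ w : WVar N k q → R, exec w p o = windowSum w := by
  have htd : TDle (WND_sc N k) (k * h + k) univ := by
    refine WND_td N k h 0 univ fun v _ => ⟨Nat.zero_le _, ?_⟩
    rw [Nat.zero_add]
    exact lt_of_lt_of_le v.isLt hN2
  obtain ⟨ρ, i1, i2, p, o, hρ, hlen, hex⟩ := TD.td_upper (R := R) hq (WND_sc N k) (k * h + k) htd
  let σ : CVar (N + k) N q → WVar N k q ⊕ Bool := fun x =>
    Sum.inl (x.1, fun j => (x.2 ⟨x.1.val + j.val, by omega⟩).getD ⟨0, hq⟩)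
  obtain ⟨p', hlen', hex'⟩ := CY.exec_subst (R := R) (ρ := ρ) σ p
  refine ⟨ρ, i1, i2, p', o, hρ, ?_, fun w => ?_⟩
  · rw [hlen']
    refine hlen.trans (le_of_eq ?_)
    rw [← pow_mul]
    congr 1
    ring
  · rw [hex', hex]
    unfold netSum windowSum
    refine sum_congr rfl fun φ _ => prod_congr rfl fun t _ => ?_
    have hσ : σ (cv (WND_sc N k) φ t) = Sum.inl (wv φ t) := by
      show Sum.inl (t, fun j : Fin (k + 1) => (if (⟨t.val + j.val, by omega⟩ : Fin (N + k)) ∈
        WND_sc N k t then some (φ ⟨t.val + j.val, by omega⟩) else none).getD ⟨0, hq⟩) = _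
      unfold wv
      congr 2
      funext j
      rw [if_pos]
      · rfl
      · unfold WND_sc
        rw [mem_filter]
        refine ⟨mem_univ _, ?_, ?_⟩
        · show t.val ≤ t.val + j.val
          omega
        · show t.val + j.val ≤ t.val + k
          have := j.isLt
          omega
    show Sum.elim w (fun b => if b then 1 else 0) (σ (cv (WND_sc N k) φ t)) = w (wv φ t)
    rw [hσ]
    rfl

end Pool.Agent.H564R3.WN
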