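import Pool.Agent.H564R3.WN.Defs
import Pool.Agent.H564R3.PW.Prog

/-! The linear-time algorithm for the sum over all words weighted by their windows. -/

set_option autoImplicit false

namespace Pool.Agent.H564R3.WN

open Finset
open Pool.Agent.H564R3.PW (Instr runs exec syms L1_runs_append L1_runs_cons L1_runs_nil L1_loop
  L1_assign L1_len_flatMap)
open Pool.Agent.H564R3.TS

section WNC

variable {R : Type} [CommSemiring R] {k q : ℕ}

/-- the first `k` letters of a window -/
def WNC_i (x : Fin (k + 1) → Fin q) : Fin k → Fin q := fun j => x j.castSucc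

/-- the last `k` letters of a window -/
def WNC_t (x : Fin (k + 1) → Fin q) : Fin k → Fin q := fun j => x j.succ

/-- the sum over the continuations -/
def WNC_G (w : ℕ → (Fin (k + 1) → Fin q) → R) : ℕ → ℕ → (Fin k → Fin q) → R
  | 0, _, _ => 1
  | s + 1, t, u => ∑ x : Fin (k + 1) → Fin q,
      if WNC_i x = u then w t x * WNC_G w s (t + 1) (WNC_t x) else 0

/-- the product of the weights of the windows -/
def WNC_F (w : ℕ → (Fin (k + 1) → Fin q) → R) (s t0 L : ℕ) (h : s + k ≤ L) (φ : Fin L → Fin q) :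
    R :=
  ∏ t : Fin s, w (t0 + t.val) (fun j : Fin (k + 1) => φ ⟨t.val + j.val, by omega⟩)

theorem WNC_cons {L : ℕ} (f : (Fin (L + 1) → Fin q) → R) :
    ∑ φ : Fin (L + 1) → Fin q, f φ =
      ∑ a : Fin q, ∑ ψ : Fin L → Fin q, f (Fin.cons (α := fun _ => Fin q) a ψ) := by
  rw [← (Fin.consEquiv (fun _ : Fin (L + 1) => Fin q)).sum_comp, Fintype.sum_prod_type]
  rfl

theorem WNC_F_step (w : ℕ → (Fin (k + 1) → Fin q) → R) (s t0 L : ℕ) (h : s + 1 + k ≤ L + 1)
    (h' : s + k ≤ L) (a : Fin q) (ψ : Fin L → Fin q) :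
    WNC_F w (s + 1) t0 (L + 1) h (Fin.cons (α := fun _ => Fin q) a ψ) =
      w t0 (Fin.cons (α := fun _ => Fin q) a (fun j : Fin k => ψ ⟨j.val, by omega⟩)) *
        WNC_F w s (t0 + 1) L h' ψ := by
  unfold WNC_F
  rw [Fin.prod_univ_succ]
  congr 1
  · congr 1
    funext j
    refine Fin.cases ?_ (fun j => ?_) j
    · rfl
    · have e : (⟨(0 : Fin (s + 1)).val + j.succ.val, by omega⟩ : Fin (L + 1)) =
          Fin.succ ⟨j.val, by omega⟩ := by
        apply Fin.ext
        simp
      rw [e, Fin.cons_succ, Fin.cons_succ]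
  · apply Finset.prod_congr rfl
    intro t _
    have e : t0 + (t.succ : Fin (s + 1)).val = t0 + 1 + t.val := by
      rw [Fin.val_succ]; omega
    rw [e]
    congr 1
    funext j
    have e : (⟨(t.succ : Fin (s + 1)).val + j.val, by omega⟩ : Fin (L + 1)) =
        Fin.succ ⟨t.val + j.val, by omega⟩ := by
      apply Fin.ext
      simp
      omega
    rw [e, Fin.cons_succ]

theorem WNC_main (w : ℕ → (Fin (k + 1) → Fin q) → R) : ∀ (s L : ℕ) (h : L = s + k) (t0 : ℕ)
    (u : Fin k → Fin q),
    (∑ φ : Fin L → Fin q, if (fun j : Fin k => φ ⟨j.val, by omega⟩) = u then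
      WNC_F w s t0 L h.ge φ else 0) = WNC_G w s t0 u := by
  intro s
  induction s with
  | zero =>
    intro L h t0 u
    obtain rfl : L = k := by omega
    have e : ∀ φ : Fin L → Fin q, (if (fun j : Fin L => φ ⟨j.val, by omega⟩) = u then
      WNC_F w 0 t0 L h.ge φ else 0) = if φ = u then (1 : R) else 0 := by
      intro φ
      unfold WNC_F
      simp
    rw [Finset.sum_congr rfl (fun φ _ => e φ), Finset.sum_ite_eq' univ u]
    simp [WNC_G]
  | succ s ih =>
    intro L h t0 u
    obtain ⟨L', rfl⟩ : ∃ L', L = L' + 1 := ⟨s + k, by omega⟩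
    have h' : L' = s + k := by omega
    rw [WNC_cons]
    show _ = ∑ x : Fin (k + 1) → Fin q,
      if WNC_i x = u then w t0 x * WNC_G w s (t0 + 1) (WNC_t x) else 0
    rw [WNC_cons]
    apply Finset.sum_congr rfl
    intro a _
    have e1 : ∀ y : Fin k → Fin q,
        (if WNC_i (Fin.cons (α := fun _ => Fin q) a y) = u then
          w t0 (Fin.cons (α := fun _ => Fin q) a y) * WNC_G w s (t0 + 1)
            (WNC_t (Fin.cons (α := fun _ => Fin q) a y)) else 0) =
        ∑ ψ : Fin L' → Fin q, if (fun j : Fin k => ψ ⟨j.val, by omega⟩) = y then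
          (if WNC_i (Fin.cons (α := fun _ => Fin q) a y) = u then
            w t0 (Fin.cons (α := fun _ => Fin q) a y) * WNC_F w s (t0 + 1) L' h'.ge ψ else 0)
          else 0 := by
      intro y
      have ht : WNC_t (Fin.cons (α := fun _ => Fin q) a y) = y := by
        funext j
        rfl
      rw [ht]
      by_cases hc : WNC_i (Fin.cons (α := fun _ => Fin q) a y) = u
      · simp only [if_pos hc]
        rw [← ih L' h' (t0 + 1) y, Finset.mul_sum]
        apply Finset.sum_congr rfl
        intro ψ _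
        split_ifs <;> simp
      · simp [if_neg hc]
    rw [Finset.sum_congr rfl (fun y _ => e1 y), Finset.sum_comm]
    apply Finset.sum_congr rfl
    intro ψ _
    rw [Finset.sum_ite_eq univ, if_pos (Finset.mem_univ _), WNC_F_step w s t0 L' _ h'.ge a ψ]
    have e2 : (fun j : Fin k => (Fin.cons (α := fun _ => Fin q) a ψ : Fin (L' + 1) → Fin q)
        ⟨j.val, by omega⟩) = WNC_i (Fin.cons (α := fun _ => Fin q) a
          (fun j : Fin k => ψ ⟨j.val, by omega⟩)) := by
      funext j
      unfold WNC_i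
      obtain ⟨j, hj⟩ := j
      cases j with
      | zero => rfl
      | succ j => rfl
    rw [e2]

/-- the weights as a function on natural numbers -/
def WNC_w {N : ℕ} (w : WVar N k q → R) (t : ℕ) (x : Fin (k + 1) → Fin q) : R :=
  if h : t < N then w (⟨t, h⟩, x) else 1

theorem WNC_sum {N : ℕ} (w : WVar N k q → R) :
    ∑ u : Fin k → Fin q, WNC_G (WNC_w w) N 0 u = windowSum w := by
  have h1 : ∀ u : Fin k → Fin q, WNC_G (WNC_w w) N 0 u =
      ∑ φ : Fin (N + k) → Fin q, if (fun j : Fin k => φ ⟨j.val, by omega⟩) = u then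
        WNC_F (WNC_w w) N 0 (N + k) le_rfl φ else 0 := fun u =>
    (WNC_main (WNC_w w) N (N + k) rfl 0 u).symm
  rw [Finset.sum_congr rfl (fun u _ => h1 u), Finset.sum_comm]
  unfold windowSum
  apply Finset.sum_congr rfl
  intro φ _
  rw [Finset.sum_ite_eq univ, if_pos (Finset.mem_univ _)]
  unfold WNC_F wv WNC_w
  apply Finset.prod_congr rfl
  intro t _
  rw [dif_pos (by omega)]
  congr 2
  apply Fin.ext
  simp

/-- the registers -/
abbrev WNC_reg (k q : ℕ) : Type := (Bool × (Fin k → Fin q)) ⊕ Bool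

variable (R) in
/-- one product -/
def WNC_f {N : ℕ} (t : Fin N) (s d : Bool) (x : Fin (k + 1) → Fin q) :
    List (Instr R (WVar N k q) (WNC_reg k q)) :=
  [Instr.load (Sum.inr false) (t, x),
   Instr.mul (Sum.inr false) (Sum.inr false) (Sum.inl (s, WNC_t x)),
   Instr.add (Sum.inl (d, WNC_i x)) (Sum.inl (d, WNC_i x)) (Sum.inr false)]

theorem WNC_f_run {N : ℕ} (w : WVar N k q → R) (t : Fin N) (s d : Bool)
    (x : Fin (k + 1) → Fin q) (v : WNC_reg k q → R) :
    runs w (WNC_f R t s d x) v (Sum.inl (d, WNC_i x)) = v (Sum.inl (d, WNC_i x)) +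
      w (t, x) * v (Sum.inl (s, WNC_t x)) ∧
    ∀ r, r ≠ Sum.inl (d, WNC_i x) → r ≠ Sum.inr false → runs w (WNC_f R t s d x) v r = v r := by
  unfold WNC_f
  rw [L1_runs_cons, L1_runs_cons, L1_runs_cons, L1_runs_nil]
  simp only [Instr.run]
  refine ⟨?_, fun r hr hr0 => ?_⟩
  · rw [Function.update_self, Function.update_self, Function.update_self,
      Function.update_of_ne (by simp), Function.update_of_ne (by simp),
      Function.update_of_ne (by simp)]
  · rw [Function.update_of_ne hr, Function.update_of_ne hr0, Function.update_of_ne hr0]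

/-- assignment of a constant to all registers of a table -/
theorem WNC_const {N : ℕ} (w : WVar N k q → R) (d : Bool) (c : R) (v : WNC_reg k q → R) :
    (∀ u, runs w ((univ : Finset (Fin k → Fin q)).toList.flatMap
      fun u => [Instr.const (Sum.inl (d, u)) c]) v (Sum.inl (d, u)) = c) ∧
    ∀ r : WNC_reg k q, (∀ u, r ≠ Sum.inl (d, u)) →
      runs w ((univ : Finset (Fin k → Fin q)).toList.flatMap
      fun u => [Instr.const (Sum.inl (d, u)) c]) v r = v r := by
  have h := L1_assign (B := Fin k → Fin q) w (fun u => [Instr.const (Sum.inl (d, u)) c])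
    (fun u => (Sum.inl (d, u) : WNC_reg k q)) (fun r => ∀ u, r ≠ Sum.inl (d, u)) (fun _ => c)
    (by
      intro x v
      rw [L1_runs_cons, L1_runs_nil]
      simp only [Instr.run, Function.update_self])
    (by
      intro x v r hr
      rw [L1_runs_cons, L1_runs_nil]
      simp only [Instr.run]
      rw [Function.update_of_ne (hr x)])
    (by
      intro x x' v hx
      rw [L1_runs_cons, L1_runs_nil]
      simp only [Instr.run]
      rw [Function.update_of_ne]
      intro h
      apply hx
      have := Sum.inl.inj h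
      exact ((Prod.mk.inj this).2).symm)
    (univ : Finset (Fin k → Fin q)).toList v
  refine ⟨fun u => ?_, fun r hr => h.2 r hr⟩
  rw [h.1 u, if_pos (by simp)]

variable (R) in
/-- the program of a window -/
noncomputable def WNC_stage {N : ℕ} (t : Fin N) (s d : Bool) :
    List (Instr R (WVar N k q) (WNC_reg k q)) :=
  ((univ : Finset (Fin k → Fin q)).toList.flatMap fun u => [Instr.const (Sum.inl (d, u)) 0]) ++
    (univ : Finset (Fin (k + 1) → Fin q)).toList.flatMap (WNC_f R t s d)

theorem WNC_stage_run {N : ℕ} (w : WVar N k q → R) (t : Fin N) (s d : Bool) (hsd : s ≠ d)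
    (v : WNC_reg k q → R) :
    (∀ u, runs w (WNC_stage R t s d) v (Sum.inl (d, u)) = ∑ x : Fin (k + 1) → Fin q,
      if WNC_i x = u then w (t, x) * v (Sum.inl (s, WNC_t x)) else 0) ∧
    runs w (WNC_stage R t s d) v (Sum.inr true) = v (Sum.inr true) := by
  unfold WNC_stage
  rw [L1_runs_append]
  obtain ⟨c1, c2⟩ := WNC_const w d (0 : R) v
  set v1 := runs w ((univ : Finset (Fin k → Fin q)).toList.flatMap
      fun u => [Instr.const (Sum.inl (d, u)) (0 : R)]) v with hv1
  have hl := L1_loop (Y := Fin k → Fin q) w (WNC_f R t s d)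
    (fun y => (Sum.inl (d, y) : WNC_reg k q))
    (fun r => (∀ u, r ≠ Sum.inl (d, u)) ∧ r ≠ Sum.inr false)
    (fun x v y => if WNC_i x = y then w (t, x) * v (Sum.inl (s, WNC_t x)) else 0)
    (by
      intro x v y
      by_cases hy : WNC_i x = y
      · subst hy
        rw [if_pos rfl]
        exact (WNC_f_run w t s d x v).1
      · rw [if_neg hy, add_zero]
        exact (WNC_f_run w t s d x v).2 _ (by simp [Ne.symm hy]) (by simp))
    (by
      intro x v r hr
      exact (WNC_f_run w t s d x v).2 _ (hr.1 _) hr.2)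
    (by
      intro x v v' y hvv
      have : v (Sum.inl (s, WNC_t x)) = v' (Sum.inl (s, WNC_t x)) := by
        apply hvv
        refine ⟨fun u => by simp [hsd], by simp⟩
      simp only [this])
    (univ : Finset (Fin (k + 1) → Fin q)).toList v1
  refine ⟨fun u => ?_, ?_⟩
  · rw [hl.1 u, Finset.sum_map_toList, c1 u, zero_add]
    apply Finset.sum_congr rfl
    intro x _
    rw [c2 _ (fun u => by simp [hsd])]
  · rw [hl.2 _ ⟨fun u => by simp, by simp⟩, c2 _ (fun u => by simp)]

theorem WNC_stage_length {N : ℕ} (t : Fin N) (s d : Bool) (hq : 1 ≤ q) :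
    (WNC_stage R (k := k) (q := q) t s d).length ≤ 4 * q ^ (k + 1) := by
  unfold WNC_stage
  rw [List.length_append]
  have h1 := L1_len_flatMap (R := R) (X := WVar N k q) (ρ := WNC_reg k q)
    (fun u : Fin k → Fin q => [Instr.const (Sum.inl (d, u)) 0])
    (univ : Finset (Fin k → Fin q)).toList 1 (fun u => by simp)
  have h2 := L1_len_flatMap (WNC_f R t s d) (univ : Finset (Fin (k + 1) → Fin q)).toList 3
    (fun u => by simp [WNC_f])
  rw [Finset.length_toList, Finset.card_univ, Fintype.card_fun, Fintype.card_fin,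
    Fintype.card_fin] at h1 h2
  have h3 : q ^ k ≤ q ^ (k + 1) := Nat.pow_le_pow_right hq (by omega)
  omega

theorem WNC_prog {N : ℕ} (hq : 1 ≤ q) : ∀ s ≤ N,
    ∃ p : List (Instr R (WVar N k q) (WNC_reg k q)),
      p.length ≤ q ^ k + s * (4 * q ^ (k + 1)) ∧ ∀ w : WVar N k q → R,
        (∀ u, exec w p (Sum.inl (s.bodd, u)) = WNC_G (WNC_w w) s (N - s) u) ∧
        exec w p (Sum.inr true) = 0 := by
  intro s
  induction s with
  | zero =>
    intro _
    refine ⟨(univ : Finset (Fin k → Fin q)).toList.flatMap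
      fun u => [Instr.const (Sum.inl (false, u)) 1], ?_, fun w => ⟨fun u => ?_, ?_⟩⟩
    · have h1 := L1_len_flatMap (R := R) (X := WVar N k q) (ρ := WNC_reg k q)
        (fun u : Fin k → Fin q => [Instr.const (Sum.inl (false, u)) 1])
        (univ : Finset (Fin k → Fin q)).toList 1 (fun u => by simp)
      rw [Finset.length_toList, Finset.card_univ, Fintype.card_fun, Fintype.card_fin,
        Fintype.card_fin] at h1
      omega
    · unfold exec
      rw [Nat.bodd_zero, (WNC_const w false (1 : R) _).1 u]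
      rfl
    · unfold exec
      rw [(WNC_const w false (1 : R) _).2 _ (fun u => by simp)]
  | succ s ih =>
    intro hs
    obtain ⟨p, hp, hr⟩ := ih (by omega)
    have ht : N - (s + 1) < N := by omega
    refine ⟨p ++ WNC_stage R ⟨N - (s + 1), ht⟩ s.bodd (s + 1).bodd, ?_, fun w => ?_⟩
    · rw [List.length_append]
      have := WNC_stage_length (R := R) (k := k) (q := q) ⟨N - (s + 1), ht⟩ s.bodd (s + 1).bodd hq
      calc _ ≤ (q ^ k + s * (4 * q ^ (k + 1))) + 4 * q ^ (k + 1) := Nat.add_le_add hp this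
        _ = q ^ k + (s + 1) * (4 * q ^ (k + 1)) := by ring
    · obtain ⟨a1, a2⟩ := hr w
      have e : exec w (p ++ WNC_stage R ⟨N - (s + 1), ht⟩ s.bodd (s + 1).bodd) =
          runs w (WNC_stage R ⟨N - (s + 1), ht⟩ s.bodd (s + 1).bodd) (exec w p) := by
        unfold exec
        rw [L1_runs_append]
      obtain ⟨b1, b2⟩ := WNC_stage_run w ⟨N - (s + 1), ht⟩ s.bodd (s + 1).bodd
        (by rw [Nat.bodd_succ]; simp) (exec w p)
      rw [e]
      refine ⟨fun u => ?_, by rw [b2, a2]⟩
      rw [b1]
      show _ = ∑ x : Fin (k + 1) → Fin q, if WNC_i x = u then WNC_w w (N - (s + 1)) x *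
        WNC_G (WNC_w w) s (N - (s + 1) + 1) (WNC_t x) else 0
      apply Finset.sum_congr rfl
      intro x _
      rw [a1, show N - (s + 1) + 1 = N - s by omega]
      unfold WNC_w
      rw [dif_pos ht]

end WNC

theorem win_upper {R : Type} [CommSemiring R] (N k q : ℕ) (hN : 1 ≤ N) (hk : 1 ≤ k)
    (hq : 1 ≤ q) :
    ∃ (ρ : Type) (_ : Fintype ρ) (_ : DecidableEq ρ) (p : List (Instr R (WVar N k q) ρ)) (o : ρ),
      Fintype.card ρ = 2 * q ^ k + 2 ∧ p.length ≤ 8 * (N * q ^ (k + 1)) ∧
      ∀ w : WVar N k q → R, exec w p o = windowSum w := by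
  obtain ⟨p, hp, hr⟩ := WNC_prog (R := R) (k := k) (q := q) (N := N) hq N le_rfl
  let f : (Fin k → Fin q) → List (Instr R (WVar N k q) (WNC_reg k q)) := fun u =>
    [Instr.add (Sum.inr true) (Sum.inr true) (Sum.inl (N.bodd, u))]
  refine ⟨WNC_reg k q, inferInstance, inferInstance,
    p ++ (univ : Finset (Fin k → Fin q)).toList.flatMap f, Sum.inr true, ?_, ?_, fun w => ?_⟩
  · rw [Fintype.card_sum, Fintype.card_prod, Fintype.card_bool, Fintype.card_fun,
      Fintype.card_fin, Fintype.card_fin]
  · rw [List.length_append]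
    have h1 := L1_len_flatMap f (univ : Finset (Fin k → Fin q)).toList 1 (fun u => by simp [f])
    rw [Finset.length_toList, Finset.card_univ, Fintype.card_fun, Fintype.card_fin,
      Fintype.card_fin] at h1
    have h3 : q ^ k ≤ q ^ (k + 1) := Nat.pow_le_pow_right hq (by omega)
    have h4 : q ^ (k + 1) ≤ N * q ^ (k + 1) := Nat.le_mul_of_pos_left _ (by omega)
    calc _ ≤ (q ^ k + N * (4 * q ^ (k + 1))) + q ^ k * 1 := Nat.add_le_add hp h1
      _ = 2 * q ^ k + 4 * (N * q ^ (k + 1)) := by ring
      _ ≤ 8 * (N * q ^ (k + 1)) := by omega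
  · obtain ⟨a1, a2⟩ := hr w
    have e : exec w (p ++ (univ : Finset (Fin k → Fin q)).toList.flatMap f) =
        runs w ((univ : Finset (Fin k → Fin q)).toList.flatMap f) (exec w p) := by
      unfold exec
      rw [L1_runs_append]
    have hl := L1_loop (Y := Unit) w f
      (fun _ => (Sum.inr true : WNC_reg k q))
      (fun r => r ≠ Sum.inr true)
      (fun u v _ => v (Sum.inl (N.bodd, u)))
      (by
        intro x v y
        simp only [f]
        rw [L1_runs_cons, L1_runs_nil]
        simp only [Instr.run, Function.update_self])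
      (by
        intro x v r hr
        simp only [f]
        rw [L1_runs_cons, L1_runs_nil]
        simp only [Instr.run]
        rw [Function.update_of_ne hr])
      (by
        intro x v v' y hvv
        exact hvv _ (by simp))
      (univ : Finset (Fin k → Fin q)).toList (exec w p)
    rw [e, hl.1 (), a2, zero_add, Finset.sum_map_toList, ← WNC_sum w]
    apply Finset.sum_congr rfl
    intro u _
    rw [a1 u, Nat.sub_self]

end Pool.Agent.H564R3.WN
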